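import Pool.Agent.Helper67.NX2.Defs
import Pool.Agent.Helper5.NX.Basic
import Pool.Agent.Helper25.NX.Gcs
import Pool.Agent.Helper88.NX.BoxNorm

/-!
# Project NX2, module A28: degree lowering with major frequencies, second half
(variant of Pool/Agent/Helper88/NX/DlB.lean)
-/

set_option autoImplicit false
set_option linter.unusedSectionVars false
set_option linter.unusedVariables false

open Finset
open scoped BigOperators ComplexConjugate

namespace Pool.Agent.Helper67.NX2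

open Pool.Agent.Helper57.NX

noncomputable section

/-! ### windows -/

private theorem dbq_shift (g : ℕ → ℂ) (hg : ∀ t, ‖g t‖ ≤ 1) (X : ℕ) (hX : 1 ≤ X) (z : ℕ) :
    ‖(𝔼 t ∈ range X, g t) - 𝔼 t ∈ range X, g (t + z)‖ ≤ 2 * z / X := by
  have hX0 : (0 : ℝ) < X := by exact_mod_cast hX
  induction z with
  | zero => simp
  | succ z ih =>
    have key : ‖(𝔼 t ∈ range X, g (t + z)) - 𝔼 t ∈ range X, g (t + (z + 1))‖ ≤ 2 / X := by
      rw [expect_eq_sum_div_card, expect_eq_sum_div_card, card_range, ← sub_div, norm_div,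
        Complex.norm_natCast]
      gcongr
      have e2 : (∑ t ∈ range X, g (t + z)) - ∑ t ∈ range X, g (t + (z + 1))
          = -(g (X + z) - g z) := by
        have h3 : ∀ t : ℕ, g (t + (z + 1)) = (fun t : ℕ => g (t + z)) (t + 1) := by
          intro t
          simp only
          congr 1
          ring
        rw [sum_congr rfl fun t _ => h3 t, ← neg_sub, ← sum_sub_distrib,
          sum_range_sub (fun t : ℕ => g (t + z))]
        simp
      rw [e2, norm_neg]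
      calc ‖g (X + z) - g z‖ ≤ ‖g (X + z)‖ + ‖g z‖ := norm_sub_le _ _
        _ ≤ 2 := by linarith [hg (X + z), hg z]
    calc ‖(𝔼 t ∈ range X, g t) - 𝔼 t ∈ range X, g (t + (z + 1))‖
        ≤ ‖(𝔼 t ∈ range X, g t) - 𝔼 t ∈ range X, g (t + z)‖
          + ‖(𝔼 t ∈ range X, g (t + z)) - 𝔼 t ∈ range X, g (t + (z + 1))‖ :=
          norm_sub_le_norm_sub_add_norm_sub _ _ _
      _ ≤ 2 * z / X + 2 / X := add_le_add ih key
      _ = 2 * ((z + 1 : ℕ) : ℝ) / X := by
        push_cast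
        ring

private theorem dbq_near (θ Ψ : ℝ) (q z : ℕ) :
    ‖e (-(θ * ((q * z : ℕ) : ℝ))) - e (-(Ψ * ((q * z : ℕ) : ℝ)))‖
      ≤ 2 * Real.pi * dint (q * (θ - Ψ)) * z := by
  set m : ℤ := round ((q : ℝ) * (θ - Ψ)) with hm
  have h1 : -(θ * ((q * z : ℕ) : ℝ))
      = (-(Ψ * ((q * z : ℕ) : ℝ)) - ((q : ℝ) * (θ - Ψ) - m) * z) + ((-(m * z) : ℤ) : ℝ) := by
    push_cast
    ring
  rw [h1, e_add, e_int, mul_one]
  refine (norm_e_sub_e_le _ _).trans ?_
  have h2 : |-(Ψ * ((q * z : ℕ) : ℝ)) - ((q : ℝ) * (θ - Ψ) - m) * z - -(Ψ * ((q * z : ℕ) : ℝ))|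
      = dint (q * (θ - Ψ)) * z := by
    rw [show -(Ψ * ((q * z : ℕ) : ℝ)) - ((q : ℝ) * (θ - Ψ) - m) * z - -(Ψ * ((q * z : ℕ) : ℝ))
      = -(((q : ℝ) * (θ - Ψ) - m) * z) by ring, abs_neg, abs_mul, Nat.abs_cast]
    rfl
  rw [h2]
  exact le_of_eq (by ring)

/-- a long average is an average of short windows along progressions of difference `q`, with a
modified frequency -/
private theorem dbq_window (v : ℕ → ℂ) (hv : ∀ t, ‖v t‖ ≤ 1) (θ Ψ : ℝ) (q X Y : ℕ) (hX : 1 ≤ X)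
    (hY : 1 ≤ Y) :
    ‖𝔼 t ∈ range X, v t * e (-(θ * t))‖
      ≤ (𝔼 t0 ∈ range X, ‖𝔼 z ∈ range Y, v (t0 + q * z) * e (-(Ψ * ((q * z : ℕ) : ℝ)))‖)
        + (2 * (q * Y) / X + 2 * Real.pi * dint (q * (θ - Ψ)) * Y) := by
  have hne : (range X).Nonempty := by simpa using (by omega : X ≠ 0)
  have hne' : (range Y).Nonempty := by simpa using (by omega : Y ≠ 0)
  have hd0 : 0 ≤ dint (q * (θ - Ψ)) := abs_nonneg _
  set g : ℕ → ℂ := fun t => v t * e (-(θ * t)) with hg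
  have hg1 : ∀ t, ‖g t‖ ≤ 1 := fun t => by
    rw [hg]
    simp only [norm_mul, norm_e, mul_one]
    exact hv t
  have h1 : ‖(𝔼 t ∈ range X, g t) - 𝔼 z ∈ range Y, 𝔼 t ∈ range X, g (t + q * z)‖
      ≤ 2 * (q * Y) / X := by
    have : (𝔼 t ∈ range X, g t) - 𝔼 z ∈ range Y, 𝔼 t ∈ range X, g (t + q * z)
        = 𝔼 z ∈ range Y, ((𝔼 t ∈ range X, g t) - 𝔼 t ∈ range X, g (t + q * z)) := by
      rw [expect_sub_distrib, expect_const hne']
    rw [this]
    refine norm_expect_le_of5 _ _ (by positivity) fun z hz => ?_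
    refine (dbq_shift g hg1 X hX (q * z)).trans ?_
    have : (z : ℝ) ≤ Y := by exact_mod_cast (mem_range.mp hz).le
    push_cast
    gcongr
  have h2 : 𝔼 z ∈ range Y, 𝔼 t ∈ range X, g (t + q * z)
      = 𝔼 t ∈ range X, 𝔼 z ∈ range Y, g (t + q * z) := expect_comm _ _ _
  have h3 : ‖𝔼 t ∈ range X, 𝔼 z ∈ range Y, g (t + q * z)‖
      ≤ 𝔼 t ∈ range X, ‖𝔼 z ∈ range Y, g (t + q * z)‖ := norm_expect_le5 _ _
  have h4 : ∀ t ∈ range X, ‖𝔼 z ∈ range Y, g (t + q * z)‖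
      ≤ ‖𝔼 z ∈ range Y, v (t + q * z) * e (-(Ψ * ((q * z : ℕ) : ℝ)))‖
        + 2 * Real.pi * dint (q * (θ - Ψ)) * Y := by
    intro t _
    have h5 : 𝔼 z ∈ range Y, g (t + q * z)
        = e (-(θ * t)) * 𝔼 z ∈ range Y, v (t + q * z) * e (-(θ * ((q * z : ℕ) : ℝ))) := by
      rw [mul_expect]
      refine expect_congr rfl fun z _ => ?_
      rw [hg]
      simp only
      rw [show -(θ * ((t + q * z : ℕ) : ℝ)) = -(θ * t) + -(θ * ((q * z : ℕ) : ℝ)) by
        push_cast; ring, e_add]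
      ring
    rw [h5, norm_mul, norm_e, one_mul]
    have h6 : ‖(𝔼 z ∈ range Y, v (t + q * z) * e (-(θ * ((q * z : ℕ) : ℝ))))
        - 𝔼 z ∈ range Y, v (t + q * z) * e (-(Ψ * ((q * z : ℕ) : ℝ)))‖
        ≤ 2 * Real.pi * dint (q * (θ - Ψ)) * Y := by
      rw [← expect_sub_distrib]
      refine norm_expect_le_of5 _ _ (by positivity) fun z hz => ?_
      rw [← mul_sub, norm_mul]
      have h7 := dbq_near θ Ψ q z
      have h9 : (z : ℝ) ≤ Y := by exact_mod_cast (mem_range.mp hz).le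
      calc ‖v (t + q * z)‖ * ‖e (-(θ * ((q * z : ℕ) : ℝ))) - e (-(Ψ * ((q * z : ℕ) : ℝ)))‖
          ≤ 1 * (2 * Real.pi * dint (q * (θ - Ψ)) * z) :=
            mul_le_mul (hv _) h7 (norm_nonneg _) zero_le_one
        _ ≤ 2 * Real.pi * dint (q * (θ - Ψ)) * Y := by
            rw [one_mul]
            gcongr
    have := norm_le_norm_add_norm_sub' (𝔼 z ∈ range Y, v (t + q * z) * e (-(θ * ((q * z : ℕ) : ℝ))))
      (𝔼 z ∈ range Y, v (t + q * z) * e (-(Ψ * ((q * z : ℕ) : ℝ))))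
    linarith
  have h5 : 𝔼 t ∈ range X, ‖𝔼 z ∈ range Y, g (t + q * z)‖
      ≤ (𝔼 t ∈ range X, ‖𝔼 z ∈ range Y, v (t + q * z) * e (-(Ψ * ((q * z : ℕ) : ℝ)))‖)
        + 2 * Real.pi * dint (q * (θ - Ψ)) * Y := by
    have hc : (𝔼 _t ∈ range X, 2 * Real.pi * dint (q * (θ - Ψ)) * Y)
        = 2 * Real.pi * dint (q * (θ - Ψ)) * Y := expect_const hne _
    rw [← hc, ← expect_add_distrib]
    exact expect_le_expect h4
  have h6 := norm_le_norm_add_norm_sub' (𝔼 t ∈ range X, g t)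
    (𝔼 z ∈ range Y, 𝔼 t ∈ range X, g (t + q * z))
  rw [h2] at h6 h1
  linarith

private theorem dbq_e_sum {ι : Type} (s : Finset ι) (g : ι → ℝ) :
    e (∑ i ∈ s, g i) = ∏ i ∈ s, e (g i) := by
  classical
  induction s using Finset.induction_on with
  | empty => simp [e_zero]
  | insert i s hi ih => rw [sum_insert hi, prod_insert hi, e_add, ih]

/-! ### the Cauchy Schwarz step at one point -/

section point
variable {N : ℕ} [NeZero N]

private theorem dbq_point (k : ℕ) (hk : 1 ≤ k) (X' : ℕ) (hX' : 1 ≤ X') (V : ZMod N → ℂ)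
    (hV : ∀ x, ‖V x‖ ≤ 1) (θ : (Fin k → ℕ) → ℝ) (a' b : Fin k → ℕ) (w : ℝ) (x : ZMod N) :
    ‖𝔼 a ∈ boxset k X', cube V a b x *
        e ((∑ ω ∈ univ.erase (fun _ : Fin k => false), sg ω * θ (sel ω a a')) * w)‖ ^ (2 ^ k)
      ≤ (𝔼 a ∈ boxset k X', 𝔼 a'' ∈ boxset k X', cube V a a'' x).re := by
  classical
  have hne : ∀ i : Fin k, (range X').Nonempty := fun _ => by simpa using (by omega : X' ≠ 0)
  set Z : Finset (Fin k → Bool) := univ.erase (fun _ : Fin k => false) with hZ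
  -- the index of a nonzero `ω`
  have hidx : ∀ ω : Fin k → Bool, ∃ i : Fin k, ω ∈ Z → ω i = true := by
    intro ω
    by_cases h : ω ∈ Z
    · have h1 : ω ≠ fun _ => false := by
        rw [hZ] at h
        exact (mem_erase.mp h).1
      obtain ⟨i, hi⟩ := Function.ne_iff.mp h1
      exact ⟨i, fun _ => by simpa using hi⟩
    · exact ⟨⟨0, hk⟩, fun h' => absurd h' h⟩
  choose idx hidx using hidx
  set H : (Fin k → Bool) → (Fin k → ℕ) → ℂ := fun ω a =>
    cjj ω (V (x + (tot (sel ω a b) : ZMod N))) * e (sg ω * θ (sel ω a a') * w) with hH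
  have hcjj : ∀ (ω : Fin k → Bool) (z : ℂ), ‖cjj ω z‖ = ‖z‖ := by
    intro ω z
    unfold cjj
    split_ifs <;> simp
  have hH1 : ∀ ω a, ‖H ω a‖ ≤ 1 := by
    intro ω a
    rw [hH]
    simp only [norm_mul, norm_e, mul_one, hcjj]
    exact hV _
  have hHdep : ∀ ω ∈ Z, ∀ a a₂ : Fin k → ℕ, (∀ i, i ≠ idx ω → a i = a₂ i) → H ω a = H ω a₂ := by
    intro ω hω a a₂ h
    have hs : ∀ c : Fin k → ℕ, sel ω a c = sel ω a₂ c := by
      intro c
      funext i
      by_cases hi : i = idx ω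
      · subst hi
        simp [sel, hidx ω hω]
      · simp only [sel, h i hi]
    simp only [hH, hs]
  set B : Fin k → (Fin k → ℕ) → ℂ := fun i a => ∏ ω ∈ Z with idx ω = i, H ω a with hB
  have hmain : ∀ a : Fin k → ℕ, cube V a b x *
        e ((∑ ω ∈ Z, sg ω * θ (sel ω a a')) * w)
      = V (x + (tot a : ZMod N)) * ∏ i, B i a := by
    intro a
    have h1 : ∏ i, B i a = ∏ ω ∈ Z, H ω a := by
      rw [hB]
      exact prod_fiberwise Z idx (fun ω => H ω a)
    have h2 : e ((∑ ω ∈ Z, sg ω * θ (sel ω a a')) * w)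
        = ∏ ω ∈ Z, e (sg ω * θ (sel ω a a') * w) := by
      rw [sum_mul]
      exact dbq_e_sum Z fun ω => sg ω * θ (sel ω a a') * w
    have h3 : cube V a b x = V (x + (tot a : ZMod N))
        * ∏ ω ∈ Z, cjj ω (V (x + (tot (sel ω a b) : ZMod N))) := by
      unfold cube
      rw [← mul_prod_erase univ _ (mem_univ (fun _ : Fin k => false))]
      congr 1
      have h0 : sel (fun _ : Fin k => false) a b = a := by
        funext i
        simp [sel]
      rw [h0]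
      simp [cjj]
    rw [h1, h2, h3, mul_assoc, ← prod_mul_distrib]
  have hg := gcs hk (fun _ : Fin k => range X') hne (fun a => V (x + (tot a : ZMod N))) B
    (by
      intro i a
      rw [hB]
      simp only
      rw [norm_prod]
      exact prod_le_one (fun _ _ => norm_nonneg _) fun ω _ => hH1 ω a)
    (by
      intro i a a₂ h
      rw [hB]
      simp only
      refine prod_congr rfl fun ω hω => ?_
      have hω' := mem_filter.mp hω
      refine hHdep ω hω'.1 a a₂ fun l hl => h l ?_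
      rw [← hω'.2]
      exact hl)
  have h1 : 𝔼 a ∈ boxset k X', cube V a b x *
        e ((∑ ω ∈ Z, sg ω * θ (sel ω a a')) * w)
      = 𝔼 a ∈ Fintype.piFinset (fun _ : Fin k => range X'),
        V (x + (tot a : ZMod N)) * ∏ i, B i a :=
    expect_congr rfl fun a _ => hmain a
  rw [h1]
  exact hg

private theorem dbq_norm_sq {ι : Type} (s : Finset ι) (f : ι → ℂ) :
    ‖𝔼 i ∈ s, f i‖ ^ 2 = (𝔼 i ∈ s, 𝔼 j ∈ s, f i * conj (f j)).re := by
  rw [← expect_mul_expect, ← gcs_conj_expect, Complex.mul_conj, Complex.normSq_eq_norm_sq,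
    Complex.ofReal_re]

/-- the local quantity -/
private def dbqG (k X' q Y : ℕ) (u : ZMod N → ℂ) (x : ZMod N) : ℝ :=
  𝔼 z ∈ range Y, 𝔼 z' ∈ range Y, (𝔼 a ∈ boxset k X', 𝔼 a'' ∈ boxset k X',
    cube (fun x => u (x + ((q * z : ℕ) : ZMod N)) * conj (u (x + ((q * z' : ℕ) : ZMod N))))
      a a'' x).re

private theorem dbqG_nonneg (k : ℕ) (hk : 1 ≤ k) (X' q Y : ℕ) (u : ZMod N → ℂ) (x : ZMod N) :
    0 ≤ dbqG k X' q Y u x := by
  refine expect_nonneg fun z _ => expect_nonneg fun z' _ => ?_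
  obtain ⟨r, hr, h⟩ := gcs_pos hk (fun _ : Fin k => range X')
    (fun a => (fun x => u (x + ((q * z : ℕ) : ZMod N)) * conj (u (x + ((q * z' : ℕ) : ZMod N))))
      (x + (tot a : ZMod N)))
  have h' : 𝔼 a ∈ boxset k X', 𝔼 a'' ∈ boxset k X',
    cube (fun x => u (x + ((q * z : ℕ) : ZMod N)) * conj (u (x + ((q * z' : ℕ) : ZMod N))))
      a a'' x = r := h
  rw [h', Complex.ofReal_re]
  exact hr

private theorem dbqG_expect (k X' q Y : ℕ) (u : ZMod N → ℂ) :
    𝔼 x, dbqG k X' q Y u x = 𝔼 z ∈ range Y, 𝔼 z' ∈ range Y, Box k X'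
      (fun x => u (x + ((q * z : ℕ) : ZMod N)) * conj (u (x + ((q * z' : ℕ) : ZMod N)))) := by
  unfold dbqG
  rw [expect_comm]
  refine expect_congr rfl fun z _ => ?_
  rw [expect_comm]
  refine expect_congr rfl fun z' _ => ?_
  rw [← gcs_re_expect]
  unfold Box
  congr 1
  rw [expect_comm]
  refine expect_congr rfl fun a _ => ?_
  rw [expect_comm]

private theorem dbq_local (k : ℕ) (hk : 1 ≤ k) (X' : ℕ) (hX' : 1 ≤ X') (q Y : ℕ) (hY : 1 ≤ Y)
    (u : ZMod N → ℂ)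
    (hu : ∀ x, ‖u x‖ ≤ 1) (θ : (Fin k → ℕ) → (Fin k → ℕ) → ℕ → ℝ) (a' : Fin k → ℕ) (j : ℕ)
    (x : ZMod N) :
    (𝔼 a ∈ boxset k X', 𝔼 b ∈ boxset k X',
      ‖𝔼 z ∈ range Y, cube u a b (x + ((q * z : ℕ) : ZMod N))
        * e (-(psiSum θ a' a b j * ((q * z : ℕ) : ℝ)))‖)
        ^ (2 ^ (k + 1)) ≤ dbqG k X' q Y u x := by
  have hneb : (boxset k X').Nonempty := by
    refine ⟨fun _ => 0, ?_⟩
    simp only [boxset, Fintype.mem_piFinset, mem_range]
    intro _
    omega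
  set T : ℕ → ℕ → (Fin k → ℕ) → (Fin k → ℕ) → ℂ := fun z z' b a =>
    cube (fun x => u (x + ((q * z : ℕ) : ZMod N)) * conj (u (x + ((q * z' : ℕ) : ZMod N)))) a b x *
      e ((∑ ω ∈ univ.erase (fun _ : Fin k => false), sg ω * θ (sel ω a a') b j)
        * (((q * z : ℕ) : ℝ) - ((q * z' : ℕ) : ℝ))) with hT
  have h1 : (𝔼 a ∈ boxset k X', 𝔼 b ∈ boxset k X',
      ‖𝔼 z ∈ range Y, cube u a b (x + ((q * z : ℕ) : ZMod N))
        * e (-(psiSum θ a' a b j * ((q * z : ℕ) : ℝ)))‖) ^ 2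
      ≤ 𝔼 z ∈ range Y, 𝔼 z' ∈ range Y, 𝔼 b ∈ boxset k X', ‖𝔼 a ∈ boxset k X', T z z' b a‖ := by
    have h2 : (𝔼 a ∈ boxset k X', 𝔼 b ∈ boxset k X',
      ‖𝔼 z ∈ range Y, cube u a b (x + ((q * z : ℕ) : ZMod N))
        * e (-(psiSum θ a' a b j * ((q * z : ℕ) : ℝ)))‖) ^ 2
      ≤ 𝔼 a ∈ boxset k X', 𝔼 b ∈ boxset k X',
      ‖𝔼 z ∈ range Y, cube u a b (x + ((q * z : ℕ) : ZMod N))
        * e (-(psiSum θ a' a b j * ((q * z : ℕ) : ℝ)))‖ ^ 2 := by
      refine (gcs_sq_expect_le _ _).trans ?_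
      exact expect_le_expect fun a _ => gcs_sq_expect_le _ _
    refine h2.trans ?_
    have h3 : ∀ a b : Fin k → ℕ,
        ‖𝔼 z ∈ range Y, cube u a b (x + ((q * z : ℕ) : ZMod N))
          * e (-(psiSum θ a' a b j * ((q * z : ℕ) : ℝ)))‖ ^ 2
        = (𝔼 z ∈ range Y, 𝔼 z' ∈ range Y, T z z' b a).re := by
      intro a b
      rw [dbq_norm_sq]
      congr 1
      refine expect_congr rfl fun z _ => expect_congr rfl fun z' _ => ?_
      rw [hT]
      simp only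
      rw [cube_mul k (fun x => u (x + ((q * z : ℕ) : ZMod N)))
        (fun x => conj (u (x + ((q * z' : ℕ) : ZMod N)))),
        cube_shift, cube_conj k (fun x => u (x + ((q * z' : ℕ) : ZMod N))), cube_shift, map_mul,
        ← e_neg]
      rw [show (∑ ω ∈ univ.erase (fun _ : Fin k => false), sg ω * θ (sel ω a a') b j)
        * (((q * z : ℕ) : ℝ) - ((q * z' : ℕ) : ℝ))
        = -(psiSum θ a' a b j * ((q * z : ℕ) : ℝ)) + - -(psiSum θ a' a b j * ((q * z' : ℕ) : ℝ)) by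
          unfold psiSum; ring, e_add]
      ring
    simp only [h3]
    have h4 : 𝔼 a ∈ boxset k X', 𝔼 b ∈ boxset k X',
        (𝔼 z ∈ range Y, 𝔼 z' ∈ range Y, T z z' b a).re
        = 𝔼 z ∈ range Y, 𝔼 z' ∈ range Y, 𝔼 b ∈ boxset k X',
          (𝔼 a ∈ boxset k X', T z z' b a).re := by
      simp only [gcs_re_expect]
      have h5 : ∀ a ∈ boxset k X', 𝔼 b ∈ boxset k X', 𝔼 z ∈ range Y, 𝔼 z' ∈ range Y,
          (T z z' b a).re
          = 𝔼 z ∈ range Y, 𝔼 z' ∈ range Y, 𝔼 b ∈ boxset k X', (T z z' b a).re := by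
        intro a _
        rw [expect_comm]
        exact expect_congr rfl fun z _ => expect_comm _ _ _
      rw [expect_congr rfl h5, expect_comm]
      refine expect_congr rfl fun z _ => ?_
      rw [expect_comm]
      refine expect_congr rfl fun z' _ => ?_
      rw [expect_comm]
    rw [h4]
    exact expect_le_expect fun z _ => expect_le_expect fun z' _ => expect_le_expect fun b _ =>
      Complex.re_le_norm _
  have h0 : 0 ≤ 𝔼 a ∈ boxset k X', 𝔼 b ∈ boxset k X',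
      ‖𝔼 z ∈ range Y, cube u a b (x + ((q * z : ℕ) : ZMod N))
        * e (-(psiSum θ a' a b j * ((q * z : ℕ) : ℝ)))‖ :=
    expect_nonneg fun a _ => expect_nonneg fun b _ => norm_nonneg _
  rw [pow_succ, mul_comm, pow_mul]
  refine (pow_le_pow_left₀ (by positivity) h1 _).trans ?_
  refine (gcs_pow_expect_le _ _ _ fun z _ => expect_nonneg fun z' _ => expect_nonneg fun b _ =>
    norm_nonneg _).trans ?_
  refine expect_le_expect fun z _ => ?_
  refine (gcs_pow_expect_le _ _ _ fun z' _ => expect_nonneg fun b _ => norm_nonneg _).trans ?_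
  refine expect_le_expect fun z' _ => ?_
  refine (gcs_pow_expect_le _ _ _ fun b _ => norm_nonneg _).trans ?_
  refine expect_le hneb fun b _ => ?_
  refine dbq_point k hk X' hX' _ (fun y => ?_) (fun a => θ a b j) a' b
    (((q * z : ℕ) : ℝ) - ((q * z' : ℕ) : ℝ)) x
  rw [norm_mul, RCLike.norm_conj]
  exact mul_le_one₀ (hu _) (norm_nonneg _) (hu _)

/-- blocks cover at most everything -/
private theorem dbq_blocks (G : ZMod N → ℝ) (hG : ∀ x, 0 ≤ G x) (X : ℕ) (hX : 1 ≤ X)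
    (hXN : 2 * X ≤ N) (r : ZMod N) :
    𝔼 j ∈ range (N / X), 𝔼 t ∈ range X, G (r + ((j * X + t : ℕ) : ZMod N))
      ≤ 2 * 𝔼 x, G x := by
  have hsum : ∀ (K : ℕ) (g : ℕ → ℝ), ∑ j ∈ range K, ∑ t ∈ range X, g (j * X + t)
      = ∑ s ∈ range (K * X), g s := by
    intro K g
    induction K with
    | zero => simp
    | succ K ih => rw [sum_range_succ, ih, add_mul, one_mul, sum_range_add]
  have hN0 : 0 < N := NeZero.pos N
  have hK1 : 1 ≤ N / X := (Nat.one_le_div_iff (by omega)).mpr (by omega)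
  have hKN : N / X * X ≤ N := Nat.div_mul_le_self N X
  have hKN2 : N ≤ 2 * (N / X * X) := by
    have := Nat.lt_div_mul_add (a := N) (b := X) (by omega)
    omega
  have h1 : 𝔼 j ∈ range (N / X), 𝔼 t ∈ range X, G (r + ((j * X + t : ℕ) : ZMod N))
      = (∑ s ∈ range (N / X * X), G (r + (s : ZMod N))) / ((N / X * X : ℕ) : ℝ) := by
    rw [expect_eq_sum_div_card, card_range]
    have : ∀ j ∈ range (N / X), 𝔼 t ∈ range X, G (r + ((j * X + t : ℕ) : ZMod N))
        = (∑ t ∈ range X, G (r + ((j * X + t : ℕ) : ZMod N))) / X := by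
      intro j _
      rw [expect_eq_sum_div_card, card_range]
    rw [sum_congr rfl this, ← sum_div, hsum (N / X) (fun s => G (r + (s : ZMod N))), div_div]
    congr 1
    push_cast
    ring
  have h2 : ∑ s ∈ range (N / X * X), G (r + (s : ZMod N)) ≤ ∑ x, G x := by
    have hinj : Set.InjOn (fun s : ℕ => r + (s : ZMod N)) (range (N / X * X)) := by
      intro s hs t ht hst
      have hs' : s < N := lt_of_lt_of_le (by simpa using hs) hKN
      have ht' : t < N := lt_of_lt_of_le (by simpa using ht) hKN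
      have h3 : (s : ZMod N) = (t : ZMod N) := add_left_cancel hst
      have h4 := congrArg ZMod.val h3
      rwa [ZMod.val_natCast_of_lt hs', ZMod.val_natCast_of_lt ht'] at h4
    rw [← sum_image (f := G) hinj]
    exact sum_le_sum_of_subset_of_nonneg (subset_univ _) fun x _ _ => hG x
  have h3 : 𝔼 x, G x = (∑ x, G x) / N := by
    rw [Fintype.expect_eq_sum_div_card, ZMod.card]
  rw [h1, h3]
  have hS : 0 ≤ ∑ x, G x := sum_nonneg fun x _ => hG x
  have hN0' : (0 : ℝ) < N := by exact_mod_cast hN0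
  have hM0 : (0 : ℝ) < ((N / X * X : ℕ) : ℝ) := by
    have : 0 < N / X * X := by omega
    exact_mod_cast this
  have hKN2' : (N : ℝ) ≤ 2 * ((N / X * X : ℕ) : ℝ) := by exact_mod_cast hKN2
  calc (∑ s ∈ range (N / X * X), G (r + (s : ZMod N))) / ((N / X * X : ℕ) : ℝ)
      ≤ (∑ x, G x) / ((N / X * X : ℕ) : ℝ) := by gcongr
    _ ≤ 2 * ((∑ x, G x) / N) := by
      rw [div_le_iff₀ hM0, mul_assoc, div_mul_eq_mul_div, ← mul_div_assoc, le_div_iff₀ hN0']
      nlinarith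

/-! ### shortening the directions, passing to progressions -/

private theorem dbq_expect_mul {M : Type} [AddCommMonoid M] [Module ℚ≥0 M] (q : ZMod N)
    (hq : IsUnit q) (f : ZMod N → M) : 𝔼 x, f (q * x) = 𝔼 x, f x := by
  obtain ⟨v, hv⟩ := hq
  refine Fintype.expect_equiv (Units.mulLeft v) _ _ fun x => ?_
  rw [← hv]
  rfl

private theorem dbq_cjj_mul {k : ℕ} (ω : Fin k → Bool) (z w : ℂ) :
    cjj ω (z * w) = cjj ω z * cjj ω w := by
  unfold cjj
  split_ifs <;> simp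

private theorem dbq_cjj_conj {k : ℕ} (ω : Fin k → Bool) (z : ℂ) :
    cjj ω (conj z) = conj (cjj ω z) := by
  unfold cjj
  split_ifs <;> simp

private theorem dbq_cubeq (q k : ℕ) (f : ZMod N → ℂ) (a b : Fin k → ℕ) (s s' y : ZMod N) :
    cube (fun y => f ((q : ZMod N) * y + s) * conj (f ((q : ZMod N) * y + s'))) a b y
      = cubeq q f a b ((q : ZMod N) * y + s) * conj (cubeq q f a b ((q : ZMod N) * y + s')) := by
  unfold cube cubeq
  rw [map_prod, ← prod_mul_distrib]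
  refine prod_congr rfl fun ω _ => ?_
  rw [dbq_cjj_mul, dbq_cjj_conj]
  have h : ∀ s : ZMod N, (q : ZMod N) * (y + (tot (sel ω a b) : ZMod N)) + s
      = (q : ZMod N) * y + s + ((q * tot (sel ω a b) : ℕ) : ZMod N) := by
    intro s
    push_cast
    ring
  rw [h, h]

private theorem dbq_norm_cubeq_le (q k : ℕ) {f : ZMod N → ℂ} (hf : ∀ x, ‖f x‖ ≤ 1)
    (a b : Fin k → ℕ) (x : ZMod N) : ‖cubeq q f a b x‖ ≤ 1 := by
  unfold cubeq
  rw [norm_prod]
  refine prod_le_one (fun _ _ => norm_nonneg _) fun ω _ => ?_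
  have : ∀ z : ℂ, ‖cjj ω z‖ = ‖z‖ := by
    intro z
    unfold cjj
    split_ifs <;> simp
  rw [this]
  exact hf _

/-- averaging one direction with its own length and step -/
private theorem dbq_avg (q : ℕ) (hq : IsUnit (q : ZMod N)) (t k X Y : ℕ) (f : ZMod N → ℂ) :
    𝔼 z ∈ range Y, 𝔼 z' ∈ range Y,
      Box k X (fun y => f ((q : ZMod N) * y + ((t * z : ℕ) : ZMod N))
        * conj (f ((q : ZMod N) * y + ((t * z' : ℕ) : ZMod N))))
    = 𝔼 a ∈ boxset k X, 𝔼 b ∈ boxset k X, 𝔼 x, ‖Aq t Y (cubeq q f a b) x‖ ^ 2 := by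
  have hbox : ∀ z z' : ℕ, Box k X (fun y => f ((q : ZMod N) * y + ((t * z : ℕ) : ZMod N))
        * conj (f ((q : ZMod N) * y + ((t * z' : ℕ) : ZMod N))))
      = 𝔼 a ∈ boxset k X, 𝔼 b ∈ boxset k X, (𝔼 x : ZMod N,
        cubeq q f a b (x + ((t * z : ℕ) : ZMod N))
          * conj (cubeq q f a b (x + ((t * z' : ℕ) : ZMod N)))).re := by
    intro z z'
    unfold Box
    rw [Complex.re_expect]
    refine expect_congr rfl fun a _ => ?_
    rw [Complex.re_expect]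
    refine expect_congr rfl fun b _ => ?_
    congr 1
    simp only [dbq_cubeq]
    exact dbq_expect_mul (q : ZMod N) hq (fun x => cubeq q f a b (x + ((t * z : ℕ) : ZMod N))
          * conj (cubeq q f a b (x + ((t * z' : ℕ) : ZMod N))))
  simp only [hbox]
  have h1 : ∀ z ∈ range Y, 𝔼 z' ∈ range Y, 𝔼 a ∈ boxset k X, 𝔼 b ∈ boxset k X,
      (𝔼 x : ZMod N, cubeq q f a b (x + ((t * z : ℕ) : ZMod N))
          * conj (cubeq q f a b (x + ((t * z' : ℕ) : ZMod N)))).re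
      = 𝔼 a ∈ boxset k X, 𝔼 b ∈ boxset k X, 𝔼 z' ∈ range Y, (𝔼 x : ZMod N,
        cubeq q f a b (x + ((t * z : ℕ) : ZMod N))
          * conj (cubeq q f a b (x + ((t * z' : ℕ) : ZMod N)))).re := by
    intro z _
    rw [expect_comm]
    exact expect_congr rfl fun a _ => expect_comm _ _ _
  rw [expect_congr rfl h1, expect_comm]
  refine expect_congr rfl fun a _ => ?_
  rw [expect_comm]
  refine expect_congr rfl fun b _ => ?_
  have h3 : ∀ x : ZMod N, ‖Aq t Y (cubeq q f a b) x‖ ^ 2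
      = 𝔼 z ∈ range Y, 𝔼 z' ∈ range Y, (cubeq q f a b (x + ((t * z : ℕ) : ZMod N))
          * conj (cubeq q f a b (x + ((t * z' : ℕ) : ZMod N)))).re := by
    intro x
    unfold Aq
    rw [dbq_norm_sq, Complex.re_expect]
    exact expect_congr rfl fun z _ => Complex.re_expect _ _
  simp only [h3, Complex.re_expect]
  symm
  rw [expect_comm]
  exact expect_congr rfl fun z _ => expect_comm _ _ _

/-- one translation changes a long average only a little -/
private theorem dbq_A_shift {f : ZMod N → ℂ} (hf : ∀ x, ‖f x‖ ≤ 1) (L : ℕ) (hL : 1 ≤ L)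
    (x : ZMod N) (a : ℕ) : ‖A L f (x + (a : ZMod N)) - A L f x‖ ≤ 2 * a / L := by
  have h := dbq_shift (fun t => f (x + (t : ZMod N))) (fun t => hf _) L hL a
  rw [norm_sub_rev]
  refine le_trans (le_of_eq ?_) h
  congr 1
  unfold A
  congr 1
  refine expect_congr rfl fun j _ => ?_
  congr 1
  push_cast
  ring

/-- averages contract `L²` -/
private theorem dbq_l2_Aq_le (s L : ℕ) (g : ZMod N → ℂ) :
    𝔼 x, ‖A L g x‖ ^ 2 ≤ 𝔼 x, ‖g x‖ ^ 2 := by
  calc 𝔼 x, ‖A L g x‖ ^ 2 ≤ 𝔼 x, 𝔼 a ∈ range L, ‖g (x + (a : ZMod N))‖ ^ 2 := by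
        refine expect_le_expect fun x _ => ?_
        refine le_trans ?_ (gcs_sq_expect_le _ _)
        exact pow_le_pow_left₀ (norm_nonneg _) (norm_expect_le5 _ _) 2
    _ = 𝔼 a ∈ range L, 𝔼 x, ‖g (x + (a : ZMod N))‖ ^ 2 := expect_comm _ _ _
    _ = 𝔼 a ∈ range L, 𝔼 x, ‖g x‖ ^ 2 :=
        expect_congr rfl fun a _ => expect_shift (fun x => ‖g x‖ ^ 2) _
    _ ≤ 𝔼 x, ‖g x‖ ^ 2 :=
        expect_le_of5 _ _ (expect_nonneg fun _ _ => by positivity) fun _ _ => le_rfl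

/-- shortening one direction -/
private theorem dbq_shorten {w : ZMod N → ℂ} (hw : ∀ x, ‖w x‖ ≤ 1) (q X Y : ℕ) (hY : 1 ≤ Y)
    (hX : 1 ≤ X) :
    𝔼 x, ‖Aq 1 X w x‖ ^ 2 ≤ (𝔼 x, ‖Aq q Y w x‖ ^ 2) + 4 * (q * Y) / X := by
  have hA : ∀ x, Aq 1 X w x = A X w x := by
    intro x
    unfold Aq A
    refine expect_congr rfl fun a _ => ?_
    rw [one_mul]
  simp only [hA]
  have hneY : (range Y).Nonempty := by simpa using (by omega : Y ≠ 0)
  have hX0 : (0 : ℝ) < X := by exact_mod_cast hX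
  have h0 : ∀ x, ‖Aq q Y (A X w) x - A X w x‖ ≤ 2 * (q * Y) / X := by
    intro x
    have h1 : Aq q Y (A X w) x - A X w x
        = 𝔼 a ∈ range Y, (A X w (x + ((q * a : ℕ) : ZMod N)) - A X w x) := by
      rw [expect_sub_distrib, expect_const hneY]
      rfl
    rw [h1]
    refine norm_expect_le_of5 _ _ (by positivity) fun a ha => ?_
    refine (dbq_A_shift hw X hX x (q * a)).trans ?_
    have : (a : ℝ) ≤ Y := by exact_mod_cast (mem_range.mp ha).le
    push_cast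
    gcongr
  have hAqA : Aq q Y (A X w) = A X (Aq q Y w) := by
    funext x
    unfold Aq A
    rw [expect_comm]
    refine expect_congr rfl fun a _ => expect_congr rfl fun b _ => ?_
    congr 1
    ring
  have hbd : ∀ x, ‖Aq q Y (A X w) x‖ ≤ 1 := by
    intro x
    unfold Aq
    exact norm_expect_le_of5 _ _ zero_le_one fun a _ => norm_A_le hw X _
  have h1 : 𝔼 x, ‖A X w x‖ ^ 2 ≤ (𝔼 x, ‖Aq q Y (A X w) x‖ ^ 2) + 4 * (q * Y) / X := by
    have hc : (𝔼 _x : ZMod N, (4 * ((q : ℝ) * Y) / X)) = 4 * (q * Y) / X :=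
      expect_const univ_nonempty _
    rw [← hc, ← expect_add_distrib]
    refine expect_le_expect fun x _ => ?_
    have h2 := h0 x
    have h3 := norm_A_le hw X x
    have h4 := hbd x
    have h5 : ‖A X w x‖ ≤ ‖Aq q Y (A X w) x‖ + 2 * (q * Y) / X := by
      have := norm_sub_norm_le (A X w x) (Aq q Y (A X w) x)
      rw [norm_sub_rev] at h2
      linarith
    have h6 : ‖A X w x‖ ^ 2 - ‖Aq q Y (A X w) x‖ ^ 2
        = (‖A X w x‖ - ‖Aq q Y (A X w) x‖) * (‖A X w x‖ + ‖Aq q Y (A X w) x‖) := by ring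
    have h7 : 0 ≤ 2 * ((q : ℝ) * Y) / X := by positivity
    have h8 : (‖A X w x‖ - ‖Aq q Y (A X w) x‖) * (‖A X w x‖ + ‖Aq q Y (A X w) x‖)
        ≤ 2 * (q * Y) / X * 2 := by
      refine mul_le_mul (by linarith) (by linarith) (by positivity) h7
    have h9 : 2 * ((q : ℝ) * Y) / X * 2 = 4 * (q * Y) / X := by ring
    linarith
  have h2 : 𝔼 x, ‖Aq q Y (A X w) x‖ ^ 2 ≤ 𝔼 x, ‖Aq q Y w x‖ ^ 2 := by
    rw [hAqA]
    exact dbq_l2_Aq_le 1 X _
  linarith

private theorem dbq_boxset_ne (k X : ℕ) (hX : 1 ≤ X) : (boxset k X).Nonempty := by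
  refine ⟨fun _ => 0, ?_⟩
  simp only [boxset, Fintype.mem_piFinset, mem_range]
  intro _
  omega

private theorem dbq_Box_zero (X : ℕ) (f : ZMod N → ℂ) : Box 0 X f = (𝔼 x, f x).re := by
  have h1 : boxset 0 X = {Fin.elim0} := by
    ext a
    simp only [boxset, Fintype.mem_piFinset, mem_singleton]
    exact ⟨fun _ => Subsingleton.elim _ _, fun _ i => i.elim0⟩
  have h2 : ∀ (a b : Fin 0 → ℕ) (x : ZMod N), cube f a b x = f x := by
    intro a b x
    unfold cube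
    rw [Fintype.prod_unique]
    simp [cjj, tot]
  simp [Box, h1, h2]

/-- shorten all directions, and pass to the progressions of difference `q` -/
private theorem dbq_short (q : ℕ) (hq : IsUnit (q : ZMod N)) (k X Y : ℕ) (hY : 1 ≤ Y)
    (hX : 1 ≤ X) {f : ZMod N → ℂ} (hf : ∀ x, ‖f x‖ ≤ 1) :
    Box k X f ≤ Box k Y (fun y => f ((q : ZMod N) * y)) + k * (4 * (q * Y) / X) := by
  have hneX : (range X).Nonempty := by simpa using (by omega : X ≠ 0)
  induction k generalizing f with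
  | zero =>
    rw [dbq_Box_zero, dbq_Box_zero, dbq_expect_mul (q : ZMod N) hq f]
    simp
  | succ k ih =>
    have h1 : Box (k + 1) X f
        ≤ (𝔼 z ∈ range X, 𝔼 z' ∈ range X,
          Box k Y (fun y => f ((q : ZMod N) * y + ((1 * z : ℕ) : ZMod N))
            * conj (f ((q : ZMod N) * y + ((1 * z' : ℕ) : ZMod N)))))
          + k * (4 * (q * Y) / X) := by
      rw [Box_succ]
      have hc : 𝔼 _z ∈ range X, 𝔼 _z' ∈ range X, ((k : ℝ) * (4 * (q * Y) / X))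
          = k * (4 * (q * Y) / X) := by
        rw [expect_const hneX, expect_const hneX]
      rw [← hc, ← expect_add_distrib]
      refine expect_le_expect fun z _ => ?_
      rw [← expect_add_distrib]
      refine expect_le_expect fun z' _ => ?_
      have := ih (f := fun x => f (x + (z : ZMod N)) * conj (f (x + (z' : ZMod N))))
        (fun x => by
          rw [norm_mul, RCLike.norm_conj]
          exact mul_le_one₀ (hf _) (norm_nonneg _) (hf _))
      simp only [one_mul]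
      exact this
    rw [dbq_avg q hq 1 k Y X f] at h1
    have h2 : 𝔼 a ∈ boxset k Y, 𝔼 b ∈ boxset k Y, 𝔼 x, ‖Aq 1 X (cubeq q f a b) x‖ ^ 2
        ≤ (𝔼 a ∈ boxset k Y, 𝔼 b ∈ boxset k Y, 𝔼 x, ‖Aq q Y (cubeq q f a b) x‖ ^ 2)
          + 4 * (q * Y) / X := by
      have hne := dbq_boxset_ne k Y hY
      have hc : 𝔼 _a ∈ boxset k Y, 𝔼 _b ∈ boxset k Y, (4 * ((q : ℝ) * Y) / X)
          = 4 * (q * Y) / X := by
        rw [expect_const hne, expect_const hne]
      rw [← hc, ← expect_add_distrib]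
      refine expect_le_expect fun a _ => ?_
      rw [← expect_add_distrib]
      refine expect_le_expect fun b _ => ?_
      exact dbq_shorten (dbq_norm_cubeq_le q k hf a b) q X Y hY hX
    have h3 : Box (k + 1) Y (fun y => f ((q : ZMod N) * y))
        = 𝔼 a ∈ boxset k Y, 𝔼 b ∈ boxset k Y, 𝔼 x, ‖Aq q Y (cubeq q f a b) x‖ ^ 2 := by
      rw [Box_succ, ← dbq_avg q hq q k Y Y f]
      refine expect_congr rfl fun z _ => expect_congr rfl fun z' _ => ?_
      congr 1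
      funext y
      push_cast
      rw [mul_add, mul_add]
    rw [h3]
    push_cast
    linarith

end point

theorem dl_B' (k : ℕ) (hk : 1 ≤ k) : ∀ n n1 : ℕ, ∃ n3 : ℕ,
    ∀ (p : ℕ) [NeZero p] (κ : Type) [Fintype κ] [Nonempty κ] (u : κ → ZMod p → ℂ) (δ : ℝ)
      (X X' : ℕ), p.Prime → (∀ i x, ‖u i x‖ ≤ 1) → 0 < δ → δ ≤ 1 / 2 → 1 ≤ X →
      (X : ℝ) ≤ δ ^ n3 * p → 1 ≤ X' → (X' : ℝ) ≤ δ ^ n3 * X →
      ∀ (r : ZMod p) (θ : κ → (Fin k → ℕ) → (Fin k → ℕ) → ℕ → ℝ) (a' : κ → ℕ → Fin k → ℕ),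
        (∀ i j, a' i j ∈ boxset k X') →
        δ ^ n ≤ 𝔼 i, 𝔼 j ∈ range (p / X), 𝔼 a ∈ boxset k X', 𝔼 b ∈ boxset k X',
          (open scoped Classical in
          if (∃ q : ℕ, 1 ≤ q ∧ (q : ℝ) ≤ δ⁻¹ ^ n1 ∧
              dint (q * (θ i a b j - psiSum (θ i) (a' i j) a b j)) ≤ δ⁻¹ ^ n1 / X) then
            ‖𝔼 t ∈ range X, cube (u i) a b (r + ((j * X + t : ℕ) : ZMod p)) *
              e (-(θ i a b j * t))‖
          else 0) →
        ∃ q : ℕ, 1 ≤ q ∧ (q : ℝ) ≤ δ⁻¹ ^ n1 ∧ ∀ X'' : ℕ, 1 ≤ X'' → (X'' : ℝ) ≤ δ ^ n3 * X' →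
          δ ^ n3 ≤ 𝔼 i, Box (k + 1) X'' (fun z => u i ((q : ZMod p) * z)) := by
  intro n n1
  classical
  refine ⟨2 * n1 + (n + n1 + 1) * 2 ^ (k + 1) + (n + n1) + k + 10, ?_⟩
  intro p _ κ _ _ u δ X X' hp hu hδ0 hδ1 hX hXN hX' hXX r θ a' _ h
  set n3 := 2 * n1 + (n + n1 + 1) * 2 ^ (k + 1) + (n + n1) + k + 10 with hn3
  have hX0 : (0 : ℝ) < X := by exact_mod_cast hX
  have hX'0 : (0 : ℝ) < X' := by exact_mod_cast hX'
  have hN0 : (0 : ℝ) < p := by exact_mod_cast NeZero.pos p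
  have hδ1' : δ ≤ 1 := hδ1.trans (by norm_num)
  have hinv1 : 1 ≤ δ⁻¹ := (one_le_inv₀ hδ0).mpr hδ1'
  have hn3half : δ ^ n3 ≤ 1 / 2 :=
    (pow_le_pow_of_le_one hδ0.le hδ1' (by omega : 1 ≤ n3)).trans (by simpa using hδ1)
  have hXN2 : 2 * X ≤ p := by
    have : 2 * (X : ℝ) ≤ p := by nlinarith
    exact_mod_cast this
  have hKne : (range (p / X)).Nonempty := by
    have : 1 ≤ p / X := (Nat.one_le_div_iff (by omega)).mpr (by omega)
    simpa using (by omega : p / X ≠ 0)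
  have hneb : (boxset k X').Nonempty := dbq_boxset_ne k X' hX'
  have hneX : (range X).Nonempty := by simpa using (by omega : X ≠ 0)
  set V : ℝ := δ⁻¹ ^ n1 / X with hV
  have hV0 : 0 ≤ V := by positivity
  set G : κ → ℕ → (Fin k → ℕ) → (Fin k → ℕ) → ℝ := fun i j a b =>
    ‖𝔼 t ∈ range X, cube (u i) a b (r + ((j * X + t : ℕ) : ZMod p)) * e (-(θ i a b j * t))‖ with hG
  have hG0 : ∀ i j a b, 0 ≤ G i j a b := fun i j a b => norm_nonneg _
  set Ds : κ → ℕ → (Fin k → ℕ) → (Fin k → ℕ) → ℝ := fun i j a b =>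
    θ i a b j - psiSum (θ i) (a' i j) a b j with hDs
  -- pigeonhole
  have hpig : ∃ q : ℕ, 1 ≤ q ∧ (q : ℝ) ≤ δ⁻¹ ^ n1 ∧
      δ ^ (n + n1) ≤ 𝔼 i, 𝔼 j ∈ range (p / X), 𝔼 a ∈ boxset k X', 𝔼 b ∈ boxset k X',
        (if dint (q * Ds i j a b) ≤ V then G i j a b else 0) := by
    by_contra hcon
    push Not at hcon
    set Qm : ℕ := ⌊δ⁻¹ ^ n1⌋₊ with hQm
    have hQ1 : 1 ≤ Qm := Nat.one_le_floor_iff _ |>.mpr (one_le_pow₀ hinv1)
    have hmem : ∀ q ∈ Icc 1 Qm, 1 ≤ q ∧ (q : ℝ) ≤ δ⁻¹ ^ n1 := by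
      intro q hq
      have := mem_Icc.mp hq
      exact ⟨this.1, (Nat.le_floor_iff (by positivity)).mp this.2⟩
    have h1 : ∑ q ∈ Icc 1 Qm, (𝔼 i, 𝔼 j ∈ range (p / X), 𝔼 a ∈ boxset k X', 𝔼 b ∈ boxset k X',
        (if dint (q * Ds i j a b) ≤ V then G i j a b else 0)) < δ ^ n := by
      have h2 : ∑ q ∈ Icc 1 Qm, (𝔼 i, 𝔼 j ∈ range (p / X), 𝔼 a ∈ boxset k X', 𝔼 b ∈ boxset k X',
        (if dint (q * Ds i j a b) ≤ V then G i j a b else 0))
          < ∑ q ∈ Icc 1 Qm, δ ^ (n + n1) := by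
        refine sum_lt_sum_of_nonempty ⟨1, mem_Icc.mpr ⟨le_rfl, hQ1⟩⟩ fun q hq => ?_
        exact hcon q (hmem q hq).1 (hmem q hq).2
      refine h2.trans_le ?_
      rw [sum_const, Nat.card_Icc, nsmul_eq_mul, Nat.add_sub_cancel]
      have h3 : (Qm : ℝ) ≤ δ⁻¹ ^ n1 := Nat.floor_le (by positivity)
      calc (Qm : ℝ) * δ ^ (n + n1) ≤ δ⁻¹ ^ n1 * δ ^ (n + n1) := by gcongr
        _ = δ ^ n := by
          rw [pow_add, mul_comm (δ ^ n), ← mul_assoc, ← mul_pow, inv_mul_cancel₀ hδ0.ne', one_pow,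
            one_mul]
    have h2 : δ ^ n ≤ ∑ q ∈ Icc 1 Qm, (𝔼 i, 𝔼 j ∈ range (p / X), 𝔼 a ∈ boxset k X',
        𝔼 b ∈ boxset k X', (if dint (q * Ds i j a b) ≤ V then G i j a b else 0)) := by
      simp only [← expect_sum_comm]
      refine h.trans ?_
      refine expect_le_expect fun i _ => expect_le_expect fun j _ => expect_le_expect fun a _ =>
        expect_le_expect fun b _ => ?_
      have hnn : ∀ q ∈ Icc 1 Qm, 0 ≤ (if dint (q * Ds i j a b) ≤ V then G i j a b else 0) := by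
        intro q _
        split_ifs
        · exact hG0 i j a b
        · exact le_rfl
      split_ifs with hif
      · obtain ⟨q, hq1, hq2, hq3⟩ := hif
        have hq : q ∈ Icc 1 Qm := mem_Icc.mpr ⟨hq1, (Nat.le_floor_iff (by positivity)).mpr hq2⟩
        refine le_trans (le_of_eq ?_) (single_le_sum hnn hq)
        rw [if_pos hq3]
      · exact sum_nonneg hnn
    linarith
  obtain ⟨q, hq1, hq2, hq3⟩ := hpig
  refine ⟨q, hq1, hq2, ?_⟩
  intro Y hY hYX
  have hY0 : (0 : ℝ) < Y := by exact_mod_cast hY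
  have hqp : q < p := by
    have h1 : (q : ℝ) < p := by
      have h2 : δ⁻¹ ^ n1 ≤ 1 / 2 * p := by
        have h3 : δ ^ n1 * δ⁻¹ ^ n1 = 1 := by
          rw [← mul_pow, mul_inv_cancel₀ hδ0.ne', one_pow]
        have h4 : (1 : ℝ) ≤ δ ^ n3 * p := le_trans (by exact_mod_cast hX) hXN
        have h5 : δ ^ n3 ≤ δ ^ n1 * (1 / 2) := by
          have : n3 = n1 + (n1 + (n + n1 + 1) * 2 ^ (k + 1) + (n + n1) + k + 9) + 1 := by omega
          rw [this, pow_add, pow_add, pow_one]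
          have h6 : δ ^ (n1 + (n + n1 + 1) * 2 ^ (k + 1) + (n + n1) + k + 9) ≤ 1 :=
            pow_le_one₀ hδ0.le hδ1'
          calc δ ^ n1 * δ ^ (n1 + (n + n1 + 1) * 2 ^ (k + 1) + (n + n1) + k + 9) * δ
              ≤ δ ^ n1 * 1 * (1 / 2) := by gcongr
            _ = δ ^ n1 * (1 / 2) := by ring
        have h6 : (1 : ℝ) ≤ δ ^ n1 * (1 / 2) * p := h4.trans (by gcongr)
        have h7 : 0 < δ⁻¹ ^ n1 := by positivity
        calc δ⁻¹ ^ n1 = δ⁻¹ ^ n1 * 1 := (mul_one _).symm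
          _ ≤ δ⁻¹ ^ n1 * (δ ^ n1 * (1 / 2) * p) := by gcongr
          _ = (δ ^ n1 * δ⁻¹ ^ n1) * (1 / 2 * p) := by ring
          _ = 1 / 2 * p := by rw [h3, one_mul]
      have : (1 : ℝ) / 2 * p < p := by linarith
      linarith
    exact_mod_cast h1
  have hqu : IsUnit (q : ZMod p) := by
    rw [ZMod.isUnit_iff_coprime]
    exact (Nat.coprime_of_lt_prime (by omega) hqp hp).symm
  set W : κ → ℕ → ℕ → ℝ := fun i j t0 => 𝔼 a ∈ boxset k X', 𝔼 b ∈ boxset k X',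
      ‖𝔼 z ∈ range Y, cube (u i) a b (r + ((j * X + t0 : ℕ) : ZMod p) + ((q * z : ℕ) : ZMod p))
        * e (-(psiSum (θ i) (a' i j) a b j * ((q * z : ℕ) : ℝ)))‖ with hW
  set err : ℝ := 2 * (q * Y) / X + 2 * Real.pi * V * Y with herr
  have herr0 : 0 ≤ err := by positivity
  have hWn : ∀ i j t0, 0 ≤ W i j t0 := fun i j t0 =>
    expect_nonneg fun a _ => expect_nonneg fun b _ => norm_nonneg _
  have hYX2 : (Y : ℝ) ≤ δ ^ n3 * X := by
    refine hYX.trans ?_
    have : (X' : ℝ) ≤ X := hXX.trans (by nlinarith)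
    gcongr
  have hid : δ⁻¹ ^ n1 * δ ^ n1 = 1 := by
    rw [← mul_pow, inv_mul_cancel₀ hδ0.ne', one_pow]
  -- the error term
  have herr1 : err ≤ δ ^ (n + n1) / 2 := by
    have h1 : (Y : ℝ) / X ≤ δ ^ n3 := by
      rw [div_le_iff₀ hX0]
      exact hYX2
    have h2 : err = 2 * (q * (Y / X)) + 2 * Real.pi * (δ⁻¹ ^ n1 * (Y / X)) := by
      rw [herr, hV]
      ring
    have hpi : Real.pi ≤ 4 := Real.pi_le_four
    have h4 : δ ^ n3 ≤ δ ^ n1 * (δ ^ (n + n1) * (1 / 32)) := by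
      have : n3 = n1 + ((n + n1) + 5) + (n1 + (n + n1 + 1) * 2 ^ (k + 1) + k + 5) := by omega
      rw [this, pow_add, pow_add _ (n1) ((n + n1) + 5), pow_add _ (n + n1) 5]
      have h5 : δ ^ 5 ≤ 1 / 32 := by
        calc δ ^ 5 ≤ (1 / 2) ^ 5 := pow_le_pow_left₀ hδ0.le hδ1 5
          _ = 1 / 32 := by norm_num
      have h6 : δ ^ (n1 + (n + n1 + 1) * 2 ^ (k + 1) + k + 5) ≤ 1 := pow_le_one₀ hδ0.le hδ1'
      calc δ ^ n1 * (δ ^ (n + n1) * δ ^ 5) * δ ^ (n1 + (n + n1 + 1) * 2 ^ (k + 1) + k + 5)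
          ≤ δ ^ n1 * (δ ^ (n + n1) * δ ^ 5) * 1 := by gcongr
        _ ≤ δ ^ n1 * (δ ^ (n + n1) * (1 / 32)) := by
          rw [mul_one]
          gcongr
    have h7 : δ⁻¹ ^ n1 * (Y / X) ≤ δ ^ (n + n1) * (1 / 32) := by
      calc δ⁻¹ ^ n1 * ((Y : ℝ) / X) ≤ δ⁻¹ ^ n1 * (δ ^ n1 * (δ ^ (n + n1) * (1 / 32))) := by
            gcongr
            exact h1.trans h4
        _ = δ ^ (n + n1) * (1 / 32) := by rw [← mul_assoc, hid, one_mul]
    have h8 : (q : ℝ) * (Y / X) ≤ δ ^ (n + n1) * (1 / 32) := by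
      refine le_trans ?_ h7
      gcongr
    have h10 : 0 ≤ δ⁻¹ ^ n1 * ((Y : ℝ) / X) := by positivity
    have h11 : 0 < δ ^ (n + n1) := by positivity
    rw [h2]
    nlinarith
  -- step A
  have hA : δ ^ (n + n1) ≤ (𝔼 i, 𝔼 j ∈ range (p / X), 𝔼 t0 ∈ range X, W i j t0) + err := by
    refine hq3.trans ?_
    have hc : 𝔼 _i : κ, 𝔼 _j ∈ range (p / X), err = err := by
      rw [expect_const univ_nonempty, expect_const hKne]
    rw [← hc, ← expect_add_distrib]
    refine expect_le_expect fun i _ => ?_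
    rw [← expect_add_distrib]
    refine expect_le_expect fun j _ => ?_
    have hterm : ∀ a b : Fin k → ℕ,
        (if dint (q * Ds i j a b) ≤ V then G i j a b else 0)
        ≤ (𝔼 t0 ∈ range X, ‖𝔼 z ∈ range Y,
            cube (u i) a b (r + ((j * X + t0 : ℕ) : ZMod p) + ((q * z : ℕ) : ZMod p))
            * e (-(psiSum (θ i) (a' i j) a b j * ((q * z : ℕ) : ℝ)))‖) + err := by
      intro a b
      have hn : 0 ≤ 𝔼 t0 ∈ range X, ‖𝔼 z ∈ range Y,
            cube (u i) a b (r + ((j * X + t0 : ℕ) : ZMod p) + ((q * z : ℕ) : ZMod p))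
            * e (-(psiSum (θ i) (a' i j) a b j * ((q * z : ℕ) : ℝ)))‖ :=
        expect_nonneg fun _ _ => norm_nonneg _
      split_ifs with hif
      · have hw := dbq_window (fun t => cube (u i) a b (r + ((j * X + t : ℕ) : ZMod p)))
          (fun t => norm_cube_le k (hu i) a b _) (θ i a b j) (psiSum (θ i) (a' i j) a b j) q X Y
          hX hY
        refine hw.trans ?_
        have hcast : ∀ t0 z : ℕ, (r + ((j * X + (t0 + q * z) : ℕ) : ZMod p))
            = r + ((j * X + t0 : ℕ) : ZMod p) + ((q * z : ℕ) : ZMod p) := by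
          intro t0 z
          push_cast
          ring
        simp only [hcast]
        have : 2 * Real.pi * dint (q * (θ i a b j - psiSum (θ i) (a' i j) a b j)) * Y
            ≤ 2 * Real.pi * V * Y := by
          have : dint (q * (θ i a b j - psiSum (θ i) (a' i j) a b j)) ≤ V := hif
          gcongr
        rw [herr]
        linarith
      · linarith
    have hc2 : 𝔼 _a ∈ boxset k X', 𝔼 _b ∈ boxset k X', err = err := by
      rw [expect_const hneb, expect_const hneb]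
    calc 𝔼 a ∈ boxset k X', 𝔼 b ∈ boxset k X',
          (if dint (q * Ds i j a b) ≤ V then G i j a b else 0)
        ≤ 𝔼 a ∈ boxset k X', 𝔼 b ∈ boxset k X', ((𝔼 t0 ∈ range X, ‖𝔼 z ∈ range Y,
            cube (u i) a b (r + ((j * X + t0 : ℕ) : ZMod p) + ((q * z : ℕ) : ZMod p))
            * e (-(psiSum (θ i) (a' i j) a b j * ((q * z : ℕ) : ℝ)))‖) + err) :=
          expect_le_expect fun a _ => expect_le_expect fun b _ => hterm a b
      _ = (𝔼 a ∈ boxset k X', 𝔼 b ∈ boxset k X', 𝔼 t0 ∈ range X, ‖𝔼 z ∈ range Y,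
            cube (u i) a b (r + ((j * X + t0 : ℕ) : ZMod p) + ((q * z : ℕ) : ZMod p))
            * e (-(psiSum (θ i) (a' i j) a b j * ((q * z : ℕ) : ℝ)))‖) + err := by
          rw [← hc2, ← expect_add_distrib]
          refine expect_congr rfl fun a _ => ?_
          rw [← expect_add_distrib]
          simp only [hc2]
      _ = (𝔼 t0 ∈ range X, W i j t0) + err := by
          congr 1
          rw [hW]
          simp only
          have h5 : ∀ a ∈ boxset k X', 𝔼 b ∈ boxset k X', 𝔼 t0 ∈ range X, ‖𝔼 z ∈ range Y,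
            cube (u i) a b (r + ((j * X + t0 : ℕ) : ZMod p) + ((q * z : ℕ) : ZMod p))
            * e (-(psiSum (θ i) (a' i j) a b j * ((q * z : ℕ) : ℝ)))‖
            = 𝔼 t0 ∈ range X, 𝔼 b ∈ boxset k X', ‖𝔼 z ∈ range Y,
            cube (u i) a b (r + ((j * X + t0 : ℕ) : ZMod p) + ((q * z : ℕ) : ZMod p))
            * e (-(psiSum (θ i) (a' i j) a b j * ((q * z : ℕ) : ℝ)))‖ :=
              fun a _ => expect_comm _ _ _
          rw [expect_congr rfl h5, expect_comm]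
  have hA' : δ ^ (n + n1 + 1) ≤ 𝔼 i, 𝔼 j ∈ range (p / X), 𝔼 t0 ∈ range X, W i j t0 := by
    have h1 : δ ^ (n + n1 + 1) ≤ δ ^ (n + n1) / 2 := by
      rw [pow_succ]
      have : 0 < δ ^ (n + n1) := by positivity
      nlinarith
    linarith
  -- steps B and C
  have hB : (δ ^ (n + n1 + 1)) ^ (2 ^ (k + 1))
      ≤ 𝔼 i, 𝔼 j ∈ range (p / X), 𝔼 t ∈ range X,
        dbqG k X' q Y (u i) (r + ((j * X + t : ℕ) : ZMod p)) := by
    refine (pow_le_pow_left₀ (by positivity) hA' _).trans ?_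
    refine (gcs_pow_expect_le _ _ _ fun i _ => expect_nonneg fun j _ => expect_nonneg fun t _ =>
      hWn i j t).trans ?_
    refine expect_le_expect fun i _ => ?_
    refine (gcs_pow_expect_le _ _ _ fun j _ => expect_nonneg fun t _ => hWn i j t).trans ?_
    refine expect_le_expect fun j _ => ?_
    refine (gcs_pow_expect_le _ _ _ fun t _ => hWn i j t).trans ?_
    refine expect_le_expect fun t _ => ?_
    exact dbq_local k hk X' hX' q Y hY (u i) (hu i) (θ i) (a' i j) j _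
  have hC : ∀ i, 𝔼 j ∈ range (p / X), 𝔼 t ∈ range X,
        dbqG k X' q Y (u i) (r + ((j * X + t : ℕ) : ZMod p))
      ≤ 2 * (Box (k + 1) Y (fun y => u i ((q : ZMod p) * y)) + k * (4 * (q * Y) / X')) := by
    intro i
    refine (dbq_blocks (dbqG k X' q Y (u i)) (dbqG_nonneg k hk X' q Y (u i)) X hX hXN2 r).trans ?_
    refine mul_le_mul_of_nonneg_left ?_ zero_le_two
    rw [dbqG_expect]
    have hneY : (range Y).Nonempty := by simpa using (by omega : Y ≠ 0)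
    have hc : 𝔼 _z ∈ range Y, 𝔼 _z' ∈ range Y, ((k : ℝ) * (4 * (q * Y) / X'))
        = k * (4 * (q * Y) / X') := by
      rw [expect_const hneY, expect_const hneY]
    rw [Box_succ, ← hc, ← expect_add_distrib]
    refine expect_le_expect fun z _ => ?_
    rw [← expect_add_distrib]
    refine expect_le_expect fun z' _ => ?_
    have := dbq_short (N := p) q hqu k X' Y hY hX'
      (f := fun x => u i (x + ((q * z : ℕ) : ZMod p)) * conj (u i (x + ((q * z' : ℕ) : ZMod p))))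
      (fun x => by
        rw [norm_mul, RCLike.norm_conj]
        exact mul_le_one₀ (hu i _) (norm_nonneg _) (hu i _))
    refine this.trans (le_of_eq ?_)
    congr 2
    funext y
    push_cast
    rw [mul_add, mul_add]
  have hD : (δ ^ (n + n1 + 1)) ^ (2 ^ (k + 1))
      ≤ 2 * (𝔼 i, Box (k + 1) Y (fun y => u i ((q : ZMod p) * y))) + 2 * (k * (4 * (q * Y) / X')) := by
    refine hB.trans ?_
    refine (expect_le_expect fun i _ => hC i).trans (le_of_eq ?_)
    rw [← mul_expect, expect_add_distrib, expect_const univ_nonempty]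
    ring
  -- final comparison
  have hE : 2 * ((k : ℝ) * (4 * (q * Y) / X')) ≤ (δ ^ (n + n1 + 1)) ^ (2 ^ (k + 1)) / 2 := by
    have h1 : (Y : ℝ) / X' ≤ δ ^ n3 := by
      rw [div_le_iff₀ hX'0]
      exact hYX
    have h2 : (k : ℝ) ≤ δ⁻¹ ^ k := by
      have h3 : (k : ℝ) ≤ 2 ^ k := by exact_mod_cast k.lt_two_pow_self.le
      have h4 : (2 : ℝ) ≤ δ⁻¹ := by
        rw [le_inv_comm₀ (by norm_num) hδ0]
        simpa using hδ1
      exact h3.trans (pow_le_pow_left₀ (by norm_num) h4 _)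
    have h3 : δ⁻¹ ^ k * δ ^ k = 1 := by
      rw [← mul_pow, inv_mul_cancel₀ hδ0.ne', one_pow]
    have h4 : δ ^ n3 ≤ δ ^ n1 * δ ^ k * ((δ ^ (n + n1 + 1)) ^ (2 ^ (k + 1)) * (1 / 32)) := by
      rw [← pow_mul]
      have : n3 = n1 + k + ((n + n1 + 1) * 2 ^ (k + 1) + 5) + (n1 + (n + n1) + 5) := by omega
      rw [this, pow_add, pow_add _ (n1 + k), pow_add _ n1 k,
        pow_add _ ((n + n1 + 1) * 2 ^ (k + 1)) 5]
      have h5 : δ ^ 5 ≤ 1 / 32 := by
        calc δ ^ 5 ≤ (1 / 2) ^ 5 := pow_le_pow_left₀ hδ0.le hδ1 5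
          _ = 1 / 32 := by norm_num
      have h6 : δ ^ (n1 + (n + n1) + 5) ≤ 1 := pow_le_one₀ hδ0.le hδ1'
      calc δ ^ n1 * δ ^ k * (δ ^ ((n + n1 + 1) * 2 ^ (k + 1)) * δ ^ 5) * δ ^ (n1 + (n + n1) + 5)
          ≤ δ ^ n1 * δ ^ k * (δ ^ ((n + n1 + 1) * 2 ^ (k + 1)) * δ ^ 5) * 1 := by gcongr
        _ ≤ δ ^ n1 * δ ^ k * (δ ^ ((n + n1 + 1) * 2 ^ (k + 1)) * (1 / 32)) := by
          rw [mul_one]
          gcongr
    calc 2 * ((k : ℝ) * (4 * (q * Y) / X')) = 8 * (k * q * (Y / X')) := by ring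
      _ ≤ 8 * (δ⁻¹ ^ k * δ⁻¹ ^ n1 *
          (δ ^ n1 * δ ^ k * ((δ ^ (n + n1 + 1)) ^ (2 ^ (k + 1)) * (1 / 32)))) := by
          gcongr
          exact h1.trans h4
      _ = 8 * ((δ⁻¹ ^ k * δ ^ k) * (δ⁻¹ ^ n1 * δ ^ n1) *
          ((δ ^ (n + n1 + 1)) ^ (2 ^ (k + 1)) * (1 / 32))) := by ring
      _ = 8 * ((δ ^ (n + n1 + 1)) ^ (2 ^ (k + 1)) * (1 / 32)) := by rw [h3, hid]; ring
      _ ≤ (δ ^ (n + n1 + 1)) ^ (2 ^ (k + 1)) / 2 := by
          have : 0 < (δ ^ (n + n1 + 1)) ^ (2 ^ (k + 1)) := by positivity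
          linarith
  have hF : δ ^ n3 ≤ (δ ^ (n + n1 + 1)) ^ (2 ^ (k + 1)) * (1 / 4) := by
    rw [← pow_mul]
    have : n3 = (n + n1 + 1) * 2 ^ (k + 1) + 2 + (2 * n1 + (n + n1) + k + 8) := by omega
    rw [this, pow_add, pow_add]
    have h5 : δ ^ 2 ≤ 1 / 4 := by
      calc δ ^ 2 ≤ (1 / 2) ^ 2 := pow_le_pow_left₀ hδ0.le hδ1 2
        _ = 1 / 4 := by norm_num
    have h6 : δ ^ (2 * n1 + (n + n1) + k + 8) ≤ 1 := pow_le_one₀ hδ0.le hδ1'
    calc δ ^ ((n + n1 + 1) * 2 ^ (k + 1)) * δ ^ 2 * δ ^ (2 * n1 + (n + n1) + k + 8)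
        ≤ δ ^ ((n + n1 + 1) * 2 ^ (k + 1)) * δ ^ 2 * 1 := by gcongr
      _ ≤ δ ^ ((n + n1 + 1) * 2 ^ (k + 1)) * (1 / 4) := by
        rw [mul_one]
        gcongr
  linarith

end

end Pool.Agent.Helper67.NX2
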